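import Pool.Agent.Q85.VL.Defs

/-! Project VL of helper85, job VL-11: for an orientation `θ` of the vorticity the field `θ ω` is
weakly free of divergence. -/

set_option autoImplicit false

open MeasureTheory Set Metric Filter Topology
open scoped ContDiff
open H459R3.NS Pool.Agent.W268.NS Pool.Agent.Q67.VD

namespace Pool.Agent.Q15.VL

open Pool.Agent.Q85.CC Pool.Agent.Q85.CL Pool.Agent.Q151.CC Pool.Agent.Q85.VL

theorem pd_comm' {f : V → ℝ} (hf : ContDiff ℝ ∞ f) (i j : Fin 3) (x : V) :
    pd i (pd j f) x = pd j (pd i f) x := by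
  have hd : DifferentiableAt ℝ (fderiv ℝ f) x :=
    ((hf.fderiv_right (m := 1) (by norm_cast)).differentiable one_ne_zero) x
  have h : ∀ a b : Fin 3, pd a (pd b f) x
      = fderiv ℝ (fderiv ℝ f) x (Pi.single a 1) (Pi.single b 1) := by
    intro a b
    unfold pd
    rw [fderiv_clm_apply hd (differentiableAt_const _)]
    simp
  rw [h, h]
  exact (hf.contDiffAt.isSymmSndFDerivAt (by simp; exact WithTop.coe_le_coe.2 le_top)).eq _ _

theorem pd_smooth {f : V → ℝ} (hf : ContDiff ℝ ∞ f) (i : Fin 3) : ContDiff ℝ ∞ (pd i f) :=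
  (hf.fderiv_right (m := ∞) (by norm_cast)).clm_apply contDiff_const

theorem pd_sub'' {f g : V → ℝ} (hf : ContDiff ℝ ∞ f) (hg : ContDiff ℝ ∞ g) (j : Fin 3) (x : V) :
    pd j (fun y => f y - g y) x = pd j f x - pd j g x := by
  unfold pd
  have h : HasFDerivAt (fun y => f y - g y) _ x :=
    ((hf.differentiable (by simp)) x).hasFDerivAt.sub ((hg.differentiable (by simp)) x).hasFDerivAt
  rw [h.fderiv]
  rfl

theorem vort_smooth {v : V → V} (hv : SM v) (i : Fin 3) : ContDiff ℝ ∞ (fun y => vort v y i) := by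
  have h : ∀ a b c d : Fin 3, ContDiff ℝ ∞ (fun y => gradM v y a b - gradM v y c d) :=
    fun a b c d => (pd_smooth (hv b) a).sub (pd_smooth (hv d) c)
  fin_cases i
  · exact h 1 2 2 1
  · exact h 2 0 0 2
  · exact h 0 1 1 0

theorem vort_div {v : V → V} (hv : SM v) (x : V) :
    ∑ i, pd i (fun y => vort v y i) x = 0 := by
  have e : ∀ i a b c d : Fin 3, pd i (fun y => gradM v y a b - gradM v y c d) x
      = pd i (pd a (fun y => v y b)) x - pd i (pd c (fun y => v y d)) x := fun i a b c d =>
    pd_sub'' (pd_smooth (hv b) a) (pd_smooth (hv d) c) i x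
  rw [Fin.sum_univ_three]
  have e0 := e 0 1 2 2 1
  have e1 := e 1 2 0 0 2
  have e2 := e 2 0 1 1 0
  have h0 : pd 0 (fun y => vort v y 0) x = pd 0 (fun y => gradM v y 1 2 - gradM v y 2 1) x := rfl
  have h1 : pd 1 (fun y => vort v y 1) x = pd 1 (fun y => gradM v y 2 0 - gradM v y 0 2) x := rfl
  have h2 : pd 2 (fun y => vort v y 2) x = pd 2 (fun y => gradM v y 0 1 - gradM v y 1 0) x := rfl
  rw [h0, h1, h2, e0, e1, e2, pd_comm' (hv 2) 0 1, pd_comm' (hv 1) 0 2, pd_comm' (hv 0) 1 2]
  ring

theorem vort_df {v : V → V} (hv : SM v) : DF (vort v) :=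
  ⟨fun i => (vort_smooth hv i).of_le (by norm_cast), vort_div hv⟩

/-- the retraction of the space onto the cube -/
noncomputable def clp (a : V) (R : ℝ) (y : V) : V := fun i => max (a i - R) (min (a i + R) (y i))

theorem clp_cont (a : V) (R : ℝ) : Continuous (clp a R) := by
  unfold clp
  fun_prop

theorem clp_mem {a : V} {R : ℝ} (hR : 0 ≤ R) (y : V) : ‖clp a R y - a‖ ≤ R := by
  rw [pi_norm_le_iff_of_nonneg hR]
  intro i
  rw [Real.norm_eq_abs, abs_le, Pi.sub_apply]
  unfold clp
  constructor
  · have := le_max_left (a i - R) (min (a i + R) (y i))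
    linarith
  · have h1 : min (a i + R) (y i) ≤ a i + R := min_le_left _ _
    have h2 : max (a i - R) (min (a i + R) (y i)) ≤ a i + R := max_le (by linarith) h1
    linarith

theorem clp_eq {a : V} {R : ℝ} {y : V} (hy : ‖y - a‖ ≤ R) : clp a R y = y := by
  funext i
  have h := (norm_le_pi_norm (y - a) i).trans hy
  rw [Real.norm_eq_abs, abs_le, Pi.sub_apply] at h
  unfold clp
  rw [min_eq_right (by linarith [h.2]), max_eq_right (by linarith [h.1])]

theorem or_sq {θ : V → ℝ} (h : ∀ y, θ y = 1 ∨ θ y = -1) (y : V) : |θ y| = 1 := by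
  rcases h y with h | h <;> rw [h] <;> simp

theorem or_cont {θ : V → ℝ} {a : V} {R : ℝ} {z : V → V} (hz : Continuous z)
    (hθ : Orient θ a R z) : ContinuousOn (fun y => θ y • z y) {y | ‖y - a‖ ≤ R} := by
  intro y hy
  by_cases h0 : z y = 0
  · have h1 : Tendsto (fun y' => ‖θ y' • z y'‖) (𝓝[{y | ‖y - a‖ ≤ R}] y) (𝓝 0) := by
      have h2 : (fun y' => ‖θ y' • z y'‖) = fun y' => ‖z y'‖ := by
        funext y'
        rw [norm_smul, Real.norm_eq_abs, or_sq hθ.1, one_mul]
      rw [h2]
      have h3 : Tendsto (fun y' => ‖z y'‖) (𝓝 y) (𝓝 ‖z y‖) := (hz.norm).tendsto y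
      rw [h0, norm_zero] at h3
      exact h3.mono_left nhdsWithin_le_nhds
    have h4 := tendsto_zero_iff_norm_tendsto_zero.2 h1
    show Tendsto _ _ (𝓝 (θ y • z y))
    rw [h0, smul_zero]
    exact h4
  · have h1 : ContinuousWithinAt θ {y | ‖y - a‖ ≤ R ∧ z y ≠ 0} y := hθ.2 y ⟨hy, h0⟩
    have h2 : {y | z y ≠ 0} ∈ 𝓝 y := (isOpen_ne_fun hz continuous_const).mem_nhds h0
    have h3 : ContinuousWithinAt θ {y | ‖y - a‖ ≤ R} y := by
      have h4 : {y | ‖y - a‖ ≤ R ∧ z y ≠ 0} = {y | ‖y - a‖ ≤ R} ∩ {y | z y ≠ 0} := rfl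
      rw [h4] at h1
      exact (continuousWithinAt_inter h2).1 h1
    exact h3.smul hz.continuousAt.continuousWithinAt

/-- the smooth step of the cut-off function -/
noncomputable def ph (s : ℝ) : ℝ := Real.smoothTransition (s - 1)

theorem ph_smooth : ContDiff ℝ ∞ ph := by
  unfold ph
  exact Real.smoothTransition.contDiff.comp (contDiff_id.sub contDiff_const)

theorem ph_zero {s : ℝ} (h : s ≤ 1) : ph s = 0 :=
  Real.smoothTransition.zero_of_nonpos (by linarith)

theorem ph_one {s : ℝ} (h : 2 ≤ s) : ph s = 1 :=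
  Real.smoothTransition.one_of_one_le (by linarith)

theorem ph_mem (s : ℝ) : 0 ≤ ph s ∧ ph s ≤ 1 :=
  ⟨Real.smoothTransition.nonneg _, Real.smoothTransition.le_one _⟩

theorem dph_zero {s : ℝ} (h : s < 1 ∨ 2 < s) : deriv ph s = 0 := by
  rcases h with h | h
  · have : ph =ᶠ[𝓝 s] fun _ => 0 := by
      filter_upwards [Iio_mem_nhds h] with t ht
      exact ph_zero (le_of_lt ht)
    rw [this.deriv_eq, deriv_const]
  · have : ph =ᶠ[𝓝 s] fun _ => 1 := by
      filter_upwards [Ioi_mem_nhds h] with t ht
      exact ph_one (le_of_lt ht)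
    rw [this.deriv_eq, deriv_const]

theorem dph_bdd : ∃ C : ℝ, 0 ≤ C ∧ ∀ s, |deriv ph s| ≤ C := by
  have hc : Continuous (deriv ph) := ph_smooth.continuous_deriv (by simp)
  obtain ⟨C, hC⟩ := isCompact_Icc.exists_bound_of_continuousOn (s := Icc (1 : ℝ) 2)
    hc.continuousOn
  refine ⟨max C 0, le_max_right _ _, fun s => ?_⟩
  by_cases h : s ∈ Icc (1 : ℝ) 2
  · exact (hC s h).trans (le_max_left _ _)
  · rw [dph_zero, abs_zero]
    · exact le_max_right _ _
    · by_contra hc
      push Not at hc
      exact h ⟨hc.1, hc.2⟩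

theorem wd : StmWd := by
  intro v θ a R hv hR hθ
  set wv : V → V := vort v with hwv
  have hwvs : ∀ i, ContDiff ℝ 1 (fun y => wv y i) := fun i => (vort_df hv).smooth i
  have hwvc : Continuous wv := (vort_df hv).cont
  have hWc : ContinuousOn (fun y => θ y • wv y) {y | ‖y - a‖ ≤ R} := or_cont hwvc hθ
  set W : V → V := fun y => θ (clp a R y) • wv (clp a R y) with hW
  have hWcont : Continuous W :=
    hWc.comp_continuous (clp_cont a R) fun y => clp_mem hR.le y
  have hWeq : ∀ y, ‖y - a‖ ≤ R → W y = θ y • wv y := fun y hy => by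
    simp only [hW, clp_eq hy]
  refine ⟨W, ⟨hWcont, fun F hF hts => ?_⟩, hWeq⟩
  have hcb : ∀ {y}, y ∈ closedBall a R → ‖y - a‖ ≤ R := fun h => by
    rwa [mem_closedBall, dist_eq_norm] at h
  have hFc : HasCompactSupport F :=
    (isCompact_closedBall a R).of_isClosed_subset (isClosed_tsupport F) hts
  -- the square of the length
  set q : V → ℝ := fun y => ∑ i, wv y i * wv y i with hq
  have hqs : ContDiff ℝ 1 q := by
    rw [hq]
    exact ContDiff.sum fun i _ => (hwvs i).mul (hwvs i)
  have hq0 : ∀ y, 0 ≤ q y := fun y => Finset.sum_nonneg fun i _ => mul_self_nonneg _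
  have hqz : ∀ y, q y = 0 → wv y = 0 := by
    intro y hy
    have h := (Finset.sum_eq_zero_iff_of_nonneg fun i _ => mul_self_nonneg (wv y i)).1 hy
    funext i
    exact mul_self_eq_zero.1 (h i (Finset.mem_univ i))
  have hqn : ∀ y, ‖wv y‖ ^ 2 ≤ q y := by
    intro y
    have h1 : ‖wv y‖ ≤ √(q y) := by
      rw [pi_norm_le_iff_of_nonneg (Real.sqrt_nonneg _)]
      intro i
      refine Real.abs_le_sqrt ?_
      rw [pow_two]
      exact Finset.single_le_sum (f := fun i => wv y i * wv y i) (fun i _ => mul_self_nonneg _)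
        (Finset.mem_univ i)
    calc ‖wv y‖ ^ 2 ≤ √(q y) ^ 2 := by gcongr
      _ = q y := Real.sq_sqrt (hq0 y)
  have hdq : ∀ y w, fderiv ℝ q y w = ∑ i, 2 * (wv y i * fderiv ℝ (fun z => wv z i) y w) := by
    intro y w
    have h1 : HasFDerivAt q (∑ i, (wv y i • fderiv ℝ (fun z => wv z i) y
        + wv y i • fderiv ℝ (fun z => wv z i) y)) y := by
      have h2 : ∀ i ∈ (Finset.univ : Finset (Fin 3)), HasFDerivAt (fun z => wv z i * wv z i)
          (wv y i • fderiv ℝ (fun z => wv z i) y + wv y i • fderiv ℝ (fun z => wv z i) y) y := by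
        intro i _
        have h3 := ((hwvs i).differentiable one_ne_zero y).hasFDerivAt
        exact h3.mul h3
      exact HasFDerivAt.fun_sum h2
    rw [h1.fderiv]
    simp only [ContinuousLinearMap.coe_sum', Finset.sum_apply, ContinuousLinearMap.add_apply,
      ContinuousLinearMap.smul_apply, smul_eq_mul]
    refine Finset.sum_congr rfl fun i _ => ?_
    ring
  -- the bound of the derivative of the square of the length
  obtain ⟨K, hK0, hK⟩ : ∃ K : ℝ, 0 ≤ K ∧ ∀ y ∈ closedBall a R, |fderiv ℝ q y (wv y)| ≤ K * q y := by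
    have h1 : ∀ i, ∃ K : ℝ, ∀ y ∈ closedBall a R, ‖fderiv ℝ (fun z => wv z i) y‖ ≤ K := fun i =>
      (isCompact_closedBall a R).exists_bound_of_continuousOn
        ((hwvs i).continuous_fderiv one_ne_zero).continuousOn
    choose K hK using h1
    refine ⟨∑ i, 2 * |K i|, Finset.sum_nonneg fun i _ => by positivity, fun y hy => ?_⟩
    rw [hdq, Finset.sum_mul]
    refine (Finset.abs_sum_le_sum_abs _ _).trans (Finset.sum_le_sum fun i _ => ?_)
    have h2 : |fderiv ℝ (fun z => wv z i) y (wv y)| ≤ |K i| * ‖wv y‖ := by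
      refine ((fderiv ℝ (fun z => wv z i) y).le_opNorm (wv y)).trans ?_
      exact mul_le_mul_of_nonneg_right ((hK i y hy).trans (le_abs_self _)) (norm_nonneg _)
    have h3 : |wv y i| ≤ ‖wv y‖ := norm_le_pi_norm (wv y) i
    have h4 : |wv y i| * |fderiv ℝ (fun z => wv z i) y (wv y)| ≤ ‖wv y‖ * (|K i| * ‖wv y‖) :=
      mul_le_mul h3 h2 (abs_nonneg _) (norm_nonneg _)
    rw [abs_mul, abs_mul, abs_two]
    have h5 := hqn y
    have h6 : |K i| * ‖wv y‖ ^ 2 ≤ |K i| * q y := mul_le_mul_of_nonneg_left h5 (abs_nonneg _)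
    nlinarith
  obtain ⟨C, hC0, hC⟩ := dph_bdd
  -- the cut-off functions
  set h : ℕ → V → ℝ := fun n y => ph (n * q y) with hh
  have hhs : ∀ n, ContDiff ℝ 1 (h n) := fun n =>
    (ph_smooth.of_le (by norm_cast)).comp (contDiff_const.mul hqs)
  have hdh : ∀ n y w, fderiv ℝ (h n) y w = deriv ph (n * q y) * (n * fderiv ℝ q y w) := by
    intro n y w
    have h1 : HasFDerivAt (h n) (deriv ph (n * q y) • ((n : ℝ) • fderiv ℝ q y)) y := by
      have h2 : HasDerivAt ph (deriv ph (n * q y)) (n * q y) :=
        (ph_smooth.differentiable (by simp) _).hasDerivAt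
      have h3 : HasFDerivAt (fun z => (n : ℝ) * q z) ((n : ℝ) • fderiv ℝ q y) y :=
        ((hqs.differentiable one_ne_zero y).hasFDerivAt).const_mul _
      exact HasDerivAt.comp_hasFDerivAt (h₂ := ph) (f := fun z => (n : ℝ) * q z) y h2 h3
    rw [h1.fderiv]
    simp only [ContinuousLinearMap.smul_apply, smul_eq_mul]
  -- the locally constant orientation
  have hev : ∀ n y, (fun z => θ z * (F z * h n z)) =ᶠ[𝓝 y] fun z => θ y * (F z * h n z) := by
    intro n y
    by_cases h1 : y ∈ tsupport F
    · by_cases h2 : q y = 0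
      · have h3 : ∀ᶠ z in 𝓝 y, (n : ℝ) * q z < 1 := by
          have h4 : Continuous fun z => (n : ℝ) * q z := continuous_const.mul hqs.continuous
          refine h4.continuousAt.eventually_lt continuousAt_const ?_
          rw [h2, mul_zero]
          exact one_pos
        filter_upwards [h3] with z hz
        have h5 : h n z = 0 := ph_zero hz.le
        rw [h5, mul_zero, mul_zero, mul_zero]
      · have hy : ‖y - a‖ ≤ R := hcb (hts h1)
        have h3 : wv y ≠ 0 := fun h => h2 (by simp [hq, h])
        have h4 : ContinuousWithinAt θ {y | ‖y - a‖ ≤ R} y := by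
          have h5 : ContinuousWithinAt θ ({y | ‖y - a‖ ≤ R} ∩ {y | wv y ≠ 0}) y :=
            hθ.2 y ⟨hy, h3⟩
          exact (continuousWithinAt_inter
            ((isOpen_ne_fun hwvc continuous_const).mem_nhds h3)).1 h5
        have h5 : ∀ᶠ z in 𝓝[{y | ‖y - a‖ ≤ R}] y, |θ z - θ y| < 1 := by
          have := h4.tendsto.sub_const (θ y)
          rw [sub_self] at this
          have h6 := this.abs
          rw [abs_zero] at h6
          exact h6.eventually_lt_const one_pos
        rw [eventually_nhdsWithin_iff] at h5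
        filter_upwards [h5] with z hz
        by_cases h6 : ‖z - a‖ ≤ R
        · have h7 : θ z = θ y := by
            have h8 := hz h6
            rcases hθ.1 z with h9 | h9 <;> rcases hθ.1 y with h10 | h10 <;> rw [h9, h10] at h8 ⊢ <;>
              norm_num at h8
          rw [h7]
        · have h7 : F z = 0 := by
            by_contra hc
            exact h6 (hcb (hts (subset_tsupport F hc)))
          rw [h7, zero_mul, mul_zero, mul_zero]
    · have h2 : F =ᶠ[𝓝 y] 0 := notMem_tsupport_iff_eventuallyEq.1 h1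
      filter_upwards [h2] with z hz
      rw [hz, Pi.zero_apply, zero_mul, mul_zero, mul_zero]
  have hGs : ∀ n, ContDiff ℝ 1 (fun z => θ z * (F z * h n z)) := fun n => by
    rw [contDiff_iff_contDiffAt]
    intro y
    refine ContDiffAt.congr_of_eventuallyEq ?_ (hev n y)
    exact (contDiff_const.mul (hF.mul (hhs n))).contDiffAt
  have hGd : ∀ n y w, fderiv ℝ (fun z => θ z * (F z * h n z)) y w
      = θ y * (h n y * fderiv ℝ F y w + F y * fderiv ℝ (h n) y w) := by
    intro n y w
    rw [(hev n y).fderiv_eq]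
    have h1 : HasFDerivAt (fun z => θ y * (F z * h n z))
        (θ y • (F y • fderiv ℝ (h n) y + h n y • fderiv ℝ F y)) y :=
      (((hF.differentiable one_ne_zero y).hasFDerivAt).mul
        (((hhs n).differentiable one_ne_zero y).hasFDerivAt)).const_mul _
    rw [h1.fderiv]
    simp only [ContinuousLinearMap.smul_apply, ContinuousLinearMap.add_apply, smul_eq_mul]
    ring
  have hGc : ∀ n, HasCompactSupport (fun z => θ z * (F z * h n z)) := fun n =>
    (hFc.mul_right).mul_left
  have hzero : ∀ n, ∫ y in closedBall a R,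
      (h n y * fderiv ℝ F y (W y) + F y * fderiv ℝ (h n) y (W y)) = 0 := by
    intro n
    have h1 := div_int (vort_df hv) (hGs n) (hGc n)
    rw [← setIntegral_eq_integral_of_forall_compl_eq_zero (s := closedBall a R)] at h1
    · rw [← h1]
      refine setIntegral_congr_fun measurableSet_closedBall fun y hy => ?_
      show _ = fderiv ℝ (fun z => θ z * (F z * h n z)) y (wv y)
      rw [hGd, hWeq y (hcb hy), map_smul, map_smul, smul_eq_mul, smul_eq_mul]
      ring
    · intro y hy
      have h2 : fderiv ℝ (fun z => θ z * (F z * h n z)) y = 0 := by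
        by_contra hc
        have h3 := support_fderiv_subset ℝ hc
        have h4 : tsupport (fun z => θ z * (F z * h n z)) ⊆ tsupport F := by
          refine closure_mono fun z hz => ?_
          intro h5
          refine hz ?_
          show θ z * (F z * h n z) = 0
          rw [h5, zero_mul, mul_zero]
        exact hy (hts (h4 h3))
      rw [h2]
      rfl
  have hDc : Continuous fun y => fderiv ℝ F y (W y) :=
    (hF.continuous_fderiv one_ne_zero).clm_apply hWcont
  have hEc : ∀ n, Continuous fun y => h n y * fderiv ℝ F y (W y) + F y * fderiv ℝ (h n) y (W y) :=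
    fun n => ((hhs n).continuous.mul hDc).add
      (hF.continuous.mul (((hhs n).continuous_fderiv one_ne_zero).clm_apply hWcont))
  have hlim : Tendsto (fun n => ∫ y in closedBall a R,
      (h n y * fderiv ℝ F y (W y) + F y * fderiv ℝ (h n) y (W y))) atTop
      (𝓝 (∫ y in closedBall a R, fderiv ℝ F y (W y))) := by
    refine tendsto_integral_of_dominated_convergence
      (fun y => |fderiv ℝ F y (W y)| + |F y| * (C * (2 * K))) (fun n => (hEc n).aestronglyMeasurable)
      ?_ (fun n => ?_) ?_
    · exact ((hDc.abs.add (hF.continuous.abs.mul continuous_const)).continuousOn).integrableOn_compact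
        (isCompact_closedBall a R)
    · rw [ae_restrict_iff' measurableSet_closedBall]
      refine Eventually.of_forall fun y hy => ?_
      rw [Real.norm_eq_abs]
      refine (abs_add_le _ _).trans (add_le_add ?_ ?_)
      · rw [abs_mul]
        have h1 : |h n y| ≤ 1 := by
          rw [abs_of_nonneg (ph_mem _).1]
          exact (ph_mem _).2
        exact mul_le_of_le_one_left (abs_nonneg _) h1
      · rw [abs_mul]
        refine mul_le_mul_of_nonneg_left ?_ (abs_nonneg _)
        rw [hdh]
        have h1 : |fderiv ℝ q y (W y)| ≤ K * q y := by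
          rw [hWeq y (hcb hy), map_smul, smul_eq_mul, abs_mul, or_sq hθ.1, one_mul]
          exact hK y hy
        by_cases h2 : (n : ℝ) * q y ≤ 2
        · rw [abs_mul, abs_mul, Nat.abs_cast]
          refine mul_le_mul (hC _) ?_ (by positivity) hC0
          calc (n : ℝ) * |fderiv ℝ q y (W y)| ≤ n * (K * q y) := by gcongr
            _ = K * (n * q y) := by ring
            _ ≤ K * 2 := by gcongr
            _ = 2 * K := by ring
        · rw [dph_zero (Or.inr (not_le.1 h2)), zero_mul, abs_zero]
          positivity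
    · rw [ae_restrict_iff' measurableSet_closedBall]
      refine Eventually.of_forall fun y hy => ?_
      by_cases h2 : q y = 0
      · have h3 : W y = 0 := by
          rw [hWeq y (hcb hy), hqz y h2, smul_zero]
        simp only [h3, map_zero, mul_zero, add_zero]
        exact tendsto_const_nhds
      · have h3 : 0 < q y := lt_of_le_of_ne (hq0 y) (Ne.symm h2)
        have h4 : ∀ᶠ n : ℕ in atTop, (2 : ℝ) < n * q y := by
          have h5 : Tendsto (fun n : ℕ => (n : ℝ) * q y) atTop atTop :=
            tendsto_natCast_atTop_atTop.atTop_mul_const h3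
          exact h5.eventually_gt_atTop 2
        refine tendsto_const_nhds.congr' ?_
        filter_upwards [h4] with n hn
        have h5 : h n y = 1 := ph_one hn.le
        rw [hdh, dph_zero (Or.inr hn), h5]
        ring
  have h0 : Tendsto (fun n => ∫ y in closedBall a R,
      (h n y * fderiv ℝ F y (W y) + F y * fderiv ℝ (h n) y (W y))) atTop (𝓝 0) := by
    simp_rw [hzero]
    exact tendsto_const_nhds
  exact tendsto_nhds_unique hlim h0

end Pool.Agent.Q15.VL
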